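import Pool.Agent.X83.DM.Stm

set_option autoImplicit false

namespace Pool.Agent.X50.DM

open MeasureTheory Set Filter Topology Real Pool.Agent.X83.DM

lemma contg {a c : ℝ} {y g : ℝ → ℝ} (h : Ker a c y g) : Continuous g :=
  continuous_iff_continuousAt.mpr fun t => (h.dg t).continuousAt

lemma conty {a c : ℝ} {y g : ℝ → ℝ} (h : Ker a c y g) : Continuous y :=
  continuous_iff_continuousAt.mpr fun t => (h.dy t).continuousAt

/-- primitive part -/
noncomputable def Jf (c : ℝ) (g : ℝ → ℝ) (s : ℝ) : ℝ :=
  1 / 2 * exp (-(c * s / 2)) * ∫ r in (0 : ℝ)..s, (r * c / 2 - 1) * exp (c * r / 2) * g r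

lemma contJ (c : ℝ) {g : ℝ → ℝ} (hg : Continuous g) : Continuous (Jf c g) := by
  unfold Jf
  apply Continuous.mul
  · fun_prop
  · apply intervalIntegral.continuous_primitive
    intro a b
    apply Continuous.intervalIntegrable
    fun_prop

lemma decay_integrable {f : ℝ → ℝ} (hf : Continuous f) {M η : ℝ} (hη : 0 < η)
    (h : ∀ t, 0 ≤ t → |f t| ≤ M * exp (-(η * t))) : IntegrableOn f (Ioi 0) := by
  have h1 : IntegrableOn (fun t : ℝ => M * exp (-(η * t))) (Ioi 0) := by
    have h2 : IntegrableOn (fun t : ℝ => exp (-η * t)) (Ioi 0) :=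
      integrableOn_exp_mul_Ioi (a := -η) (by linarith) 0
    have h3 : IntegrableOn (fun t : ℝ => M * exp (-η * t)) (Ioi 0) := Integrable.const_mul h2 M
    have e : (fun t : ℝ => M * exp (-(η * t))) = fun t : ℝ => M * exp (-η * t) := by
      funext t; rw [neg_mul]
    rw [e]; exact h3
  refine Integrable.mono' h1 hf.aestronglyMeasurable.restrict ?_
  refine (ae_restrict_iff' measurableSet_Ioi).mpr (Eventually.of_forall ?_)
  intro t ht
  exact h t (le_of_lt ht)

lemma int_g {a c : ℝ} {y g : ℝ → ℝ} (h : Ker a c y g) {M η : ℝ} (hη : 0 < η)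
    (hd : ∀ t, 0 ≤ t → |y t| ≤ M * exp (-(η * t)) ∧ |g t| ≤ M * exp (-(η * t))) :
    ∫ r in Ioi (0 : ℝ), g r = 0 := by
  have hi : IntegrableOn g (Ioi 0) := decay_integrable (contg h) hη fun t ht => (hd t ht).2
  have hy : Tendsto y atTop (𝓝 0) := by
    have h0 : Tendsto (fun t : ℝ => M * exp (-(η * t))) atTop (𝓝 0) := by
      have h1 : Tendsto (fun t : ℝ => exp (-(η * t))) atTop (𝓝 0) := by
        apply Real.tendsto_exp_neg_atTop_nhds_zero.comp
        exact tendsto_id.const_mul_atTop hη
      simpa using h1.const_mul M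
    apply squeeze_zero_norm' _ h0
    filter_upwards [eventually_ge_atTop (0 : ℝ)] with t ht
    exact (hd t ht).1
  have := integral_Ioi_of_hasDerivAt_of_tendsto' (a := (0 : ℝ)) (f := y) (f' := g)
    (fun t _ => h.dy t) hi hy
  rw [this, h.y0, sub_zero]

lemma int_N {a c : ℝ} {y g : ℝ → ℝ} (h : Ker a c y g) {M η : ℝ} (hη : 0 < η)
    (hd : ∀ t, 0 ≤ t → |y t| ≤ M * exp (-(η * t)) ∧ |g t| ≤ M * exp (-(η * t))) (s : ℝ)
    (hs : 0 ≤ s) : ∫ r in Ioi (0 : ℝ), N c s r * g r = Jf c g s := by
  have hi : IntegrableOn g (Ioi 0) := decay_integrable (contg h) hη fun t ht => (hd t ht).2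
  have hcg := contg h
  set F : ℝ → ℝ := fun r => (r * c / 2 - 1) * exp (c * r / 2) * g r with hF
  have hFc : Continuous F := by rw [hF]; fun_prop
  have e : (fun r => N c s r * g r) =
      fun r => 1 / 2 * exp (-(c * s / 2)) * (g r + (Iio s).indicator F r) := by
    funext r
    unfold N
    by_cases hr : r < s
    · rw [if_pos hr, indicator_of_mem (show r ∈ Iio s from hr)]
      simp only [hF]
      ring
    · rw [if_neg hr, indicator_of_notMem (show r ∉ Iio s from hr)]
      ring
  have hFi : IntegrableOn ((Iio s).indicator F) (Ioi 0) := by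
    rw [IntegrableOn, integrable_indicator_iff measurableSet_Iio, IntegrableOn,
      Measure.restrict_restrict measurableSet_Iio]
    have : IntegrableOn F (Icc 0 s) := hFc.integrableOn_Icc
    exact this.mono_set (fun r hr => ⟨le_of_lt hr.2, le_of_lt hr.1⟩)
  rw [e, integral_const_mul, integral_add hi hFi, int_g h hη hd, zero_add,
    setIntegral_indicator measurableSet_Iio]
  unfold Jf
  congr 1
  rw [Ioi_inter_Iio, intervalIntegral.integral_of_le hs, integral_Ioc_eq_integral_Ioo]

lemma conv_id {a c : ℝ} {y g : ℝ → ℝ} (hID : S_ID) (h : Ker a c y g) (s : ℝ) :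
    ∫ r in (0 : ℝ)..s, g r * g (s - r) = s / 2 * g s - Jf c g s := by
  rw [hID a c y g h s]
  congr 1
  unfold Jf
  rw [mul_assoc]
  congr 1
  rw [← intervalIntegral.integral_const_mul]
  congr 1
  funext r
  have : exp (-(c * (s - r) / 2)) = exp (-(c * s / 2)) * exp (c * r / 2) := by
    rw [← exp_add]
    congr 1
    ring
  rw [this]
  ring

theorem t_REP : Pool.Agent.X83.DM.S_REP := by
  intro hDEC hRES hID a c1 c2 ha hc1 hc12
  obtain ⟨M, η, hη, hM, hdec⟩ := hDEC a c1 c2 ha hc1 hc12
  refine ⟨M ^ 3 * (8 / η ^ 2), η / 2, by linarith, by positivity, ?_⟩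
  intro c hc c' hc' y g y' g' hK hK'
  have hd := hdec c hc y g hK
  have hd' := hdec c' hc' y' g' hK'
  have hg := contg hK
  have hg' := contg hK'
  by_cases hδ : c' - c = 0
  · refine ⟨fun _ => 0, continuous_const, ?_, ?_⟩
    · intro s _
      simp only [abs_zero]
      positivity
    · intro s hs
      have := hRES a c c' y g y' g' hK hK' s
      rw [hδ] at this ⊢
      linarith
  · refine ⟨fun s => (g' s - (1 - (c' - c) * s / 2) * g s - (c' - c) * Jf c g s) / (c' - c) ^ 2,
      ?_, ?_, ?_⟩
    · have := contJ c hg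
      fun_prop
    · intro s hs
      have hR := hRES a c c' y g y' g' hK hK' s
      have hC := conv_id hID hK s
      -- the key identity
      have hi1 : IntervalIntegrable (fun r => g r * g (s - r)) volume 0 s := by
        apply Continuous.intervalIntegrable; fun_prop
      have hi2 : IntervalIntegrable (fun r => g' r * g (s - r)) volume 0 s := by
        apply Continuous.intervalIntegrable; fun_prop
      have key : g' s - (1 - (c' - c) * s / 2) * g s - (c' - c) * Jf c g s
          = (c' - c) * ∫ r in (0 : ℝ)..s, (g r * g (s - r) - g' r * g (s - r)) := by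
        rw [intervalIntegral.integral_sub hi1 hi2, hC]
        linear_combination hR
      have hb : ∀ r, 0 ≤ r → |g r - g' r| ≤ |c' - c| * (M ^ 2 * exp (-(η * r)) * r) := by
        intro r hr
        have hR' := hRES a c c' y g y' g' hK hK' r
        have e1 : g r - g' r = (c' - c) * ∫ u in (0 : ℝ)..r, g' u * g (r - u) := by
          linear_combination -hR'
        rw [e1, abs_mul]
        apply mul_le_mul_of_nonneg_left _ (abs_nonneg _)
        have := intervalIntegral.norm_integral_le_of_norm_le_const (a := (0 : ℝ)) (b := r)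
          (f := fun u => g' u * g (r - u)) (C := M ^ 2 * exp (-(η * r))) ?_
        · rw [sub_zero, abs_of_nonneg hr] at this
          exact this
        · intro u hu
          rw [uIoc_of_le hr] at hu
          rw [norm_mul, Real.norm_eq_abs, Real.norm_eq_abs]
          have h1 := (hd' u (le_of_lt hu.1)).2
          have h2 := (hd (r - u) (by linarith [hu.2])).2
          have h3 := mul_le_mul h1 h2 (abs_nonneg _) (by positivity)
          refine h3.trans (le_of_eq ?_)
          have : exp (-(η * r)) = exp (-(η * u)) * exp (-(η * (r - u))) := by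
            rw [← exp_add]; congr 1; ring
          rw [this]; ring
      have hb2 : |∫ r in (0 : ℝ)..s, (g r * g (s - r) - g' r * g (s - r))| ≤
          |c' - c| * (M ^ 3 * exp (-(η * s)) * s) * s := by
        have := intervalIntegral.norm_integral_le_of_norm_le_const (a := (0 : ℝ)) (b := s)
          (f := fun r => g r * g (s - r) - g' r * g (s - r))
          (C := |c' - c| * (M ^ 3 * exp (-(η * s)) * s)) ?_
        · rw [sub_zero, abs_of_nonneg hs] at this
          exact this
        · intro r hr
          rw [uIoc_of_le hs] at hr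
          have hr0 : 0 ≤ r := le_of_lt hr.1
          have e2 : g r * g (s - r) - g' r * g (s - r) = (g r - g' r) * g (s - r) := by ring
          rw [e2, norm_mul, Real.norm_eq_abs, Real.norm_eq_abs]
          have h1 := hb r hr0
          have h2 := (hd (s - r) (by linarith [hr.2])).2
          have h3 := mul_le_mul h1 h2 (abs_nonneg _) (by positivity)
          refine h3.trans ?_
          have e3 : exp (-(η * s)) = exp (-(η * r)) * exp (-(η * (s - r))) := by
            rw [← exp_add]; congr 1; ring
          rw [e3]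
          have h4 : |c' - c| * (M ^ 2 * exp (-(η * r)) * r) * (M * exp (-(η * (s - r))))
              = |c' - c| * (M ^ 3 * (exp (-(η * r)) * exp (-(η * (s - r)))) * r) := by ring
          rw [h4]
          apply mul_le_mul_of_nonneg_left _ (abs_nonneg _)
          apply mul_le_mul_of_nonneg_left hr.2 (by positivity)
      show |(g' s - (1 - (c' - c) * s / 2) * g s - (c' - c) * Jf c g s) / (c' - c) ^ 2| ≤ _
      rw [key, abs_div, abs_mul]
      have hpos : 0 < |(c' - c) ^ 2| := abs_pos.mpr (pow_ne_zero 2 hδ)
      rw [div_le_iff₀ hpos]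
      have h5 : |(c' - c) ^ 2| = |c' - c| * |c' - c| := by rw [abs_pow, pow_two]
      rw [h5]
      have h6 : s ^ 2 ≤ 8 / η ^ 2 * exp (η * s / 2) := by
        have h7 := Real.quadratic_le_exp_of_nonneg (x := η * s / 2) (by positivity)
        have h8 : (η * s / 2) ^ 2 / 2 ≤ exp (η * s / 2) := by
          have : 0 ≤ η * s / 2 := by positivity
          linarith
        have h9 : s ^ 2 = 8 / η ^ 2 * ((η * s / 2) ^ 2 / 2) := by
          field_simp
          ring
        rw [h9]
        exact mul_le_mul_of_nonneg_left h8 (by positivity)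
      have e4 : exp (-(η / 2 * s)) = exp (-(η * s)) * exp (η * s / 2) := by
        rw [← exp_add]; congr 1; ring
      calc |c' - c| * |∫ r in (0 : ℝ)..s, (g r * g (s - r) - g' r * g (s - r))|
          ≤ |c' - c| * (|c' - c| * (M ^ 3 * exp (-(η * s)) * s) * s) :=
            mul_le_mul_of_nonneg_left hb2 (abs_nonneg _)
        _ = (M ^ 3 * exp (-(η * s)) * s ^ 2) * (|c' - c| * |c' - c|) := by ring
        _ ≤ (M ^ 3 * exp (-(η * s)) * (8 / η ^ 2 * exp (η * s / 2))) * (|c' - c| * |c' - c|) := by
            apply mul_le_mul_of_nonneg_right _ (by positivity)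
            exact mul_le_mul_of_nonneg_left h6 (by positivity)
        _ = M ^ 3 * (8 / η ^ 2) * exp (-(η / 2 * s)) * (|c' - c| * |c' - c|) := by
            rw [e4]; ring
    · intro s hs
      rw [int_N hK hη hd s hs]
      have : (c' - c) ^ 2 ≠ 0 := pow_ne_zero 2 hδ
      field_simp
      ring

end Pool.Agent.X50.DM
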